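import Pool.Agent.Lib.MP_acc6f5_ag.Tame
import Pool.Agent.Lib.MP_acc6f5_ag.Andersen

namespace Pool.Agent.Results.MP_acc6f5_ag.NoDensityProperty

open Pool.Agent.Lib.MP_acc6f5_ag

/-- The affine variety `(ℂ^*)²`, with coordinate ring `ℂ[ℤ × ℤ]` (the Laurent polynomials in two
variables), is an affine-algebraic manifold with a tame set and a transitive group of algebraic
automorphisms which does not have the algebraic density property. -/
theorem result : IsAffineAlgebraicManifold (AddMonoidAlgebra ℂ (ℤ × ℤ)) ∧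
    (∃ S : Set (Points (AddMonoidAlgebra ℂ (ℤ × ℤ))), IsTameSet S) ∧
    AlgAutTransitive (AddMonoidAlgebra ℂ (ℤ × ℤ)) ∧
    ¬ HasAlgebraicDensityProperty (AddMonoidAlgebra ℂ (ℤ × ℤ)) :=
  ⟨isAffineAlgebraicManifold_L, ⟨_, isTameSet_sp⟩, algAutTransitive_L, not_adp_L⟩

end Pool.Agent.Results.MP_acc6f5_ag.NoDensityProperty
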